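import Pool.Agent.W905.TM.Comb

/-!
Subtask TM-ZS: zero-sum subfamilies.
-/

namespace Pool.Agent.W883.TM.ZS

open Pool.Agent.W905.TM

lemma prime_case (q : ℕ) [Fact q.Prime] (K : ℕ) {ι : Type} [Fintype ι] [DecidableEq ι]
    (a : ι → Fin K → ZMod q) (h : K * (q - 1) < Fintype.card ι) :
    ∃ S : Finset ι, S.Nonempty ∧ ∀ t, ∑ i ∈ S, a i t = 0 := by
  classical
  have hq : 2 ≤ q := (Fact.out : q.Prime).two_le
  let f : Fin K → MvPolynomial ι (ZMod q) := fun t =>
    ∑ i, MvPolynomial.C (a i t) * MvPolynomial.X i ^ (q - 1)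
  have hdeg : ∀ t, (f t).totalDegree ≤ q - 1 := by
    intro t
    apply MvPolynomial.totalDegree_finsetSum_le
    intro i _
    refine (MvPolynomial.totalDegree_mul _ _).trans ?_
    rw [MvPolynomial.totalDegree_C, zero_add, MvPolynomial.totalDegree_X_pow]
  have hsum : (∑ t ∈ (Finset.univ : Finset (Fin K)), (f t).totalDegree) < Fintype.card ι := by
    refine lt_of_le_of_lt (Finset.sum_le_sum (fun t _ => hdeg t)) ?_
    simpa using h
  have hdvd := char_dvd_card_solutions_of_sum_lt (K := ZMod q) q hsum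
  have hev : ∀ (x : ι → ZMod q) t, MvPolynomial.eval x (f t) = ∑ i, a i t * x i ^ (q - 1) := by
    intro x t
    simp [f, map_sum]
  have h0 : ∀ t ∈ (Finset.univ : Finset (Fin K)), MvPolynomial.eval (0 : ι → ZMod q) (f t) = 0 := by
    intro t _
    rw [hev]
    apply Finset.sum_eq_zero
    intro i _
    rw [Pi.zero_apply, zero_pow (by omega), mul_zero]
  have hpos : 0 < Fintype.card {x : ι → ZMod q // ∀ t ∈ (Finset.univ : Finset (Fin K)),
      MvPolynomial.eval x (f t) = 0} := Fintype.card_pos_iff.2 ⟨⟨0, h0⟩⟩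
  have h1 : q ≤ Fintype.card {x : ι → ZMod q // ∀ t ∈ (Finset.univ : Finset (Fin K)),
      MvPolynomial.eval x (f t) = 0} := by
    apply Nat.le_of_dvd hpos
    convert hdvd
  obtain ⟨⟨x, hx⟩, hne⟩ := Fintype.exists_ne_of_one_lt_card (lt_of_lt_of_le hq h1) ⟨0, h0⟩
  have hx0 : x ≠ 0 := fun h => hne (Subtype.ext h)
  refine ⟨Finset.univ.filter (fun i => x i ≠ 0), ?_, ?_⟩
  · obtain ⟨i, hi⟩ := Function.ne_iff.1 hx0
    exact ⟨i, by simpa using hi⟩
  · intro t
    have h2 := hx t (Finset.mem_univ _)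
    rw [hev] at h2
    refine Eq.trans ?_ h2
    rw [Finset.sum_filter]
    apply Finset.sum_congr rfl
    intro i _
    by_cases h : x i = 0
    · rw [if_neg (by simpa using h), h, zero_pow (by omega), mul_zero]
    · rw [if_pos h, ZMod.pow_card_sub_one_eq_one h, mul_one]

lemma nat_case (m : ℕ) : 0 < m → ∀ (K : ℕ) {ι : Type} [Fintype ι] [DecidableEq ι]
    (a : ι → Fin K → ℕ), (K * m + 1) ^ m ≤ Fintype.card ι →
    ∃ S : Finset ι, S.Nonempty ∧ ∀ t, m ∣ ∑ i ∈ S, a i t := by
  induction m using Nat.strong_induction_on with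
  | _ m ih =>
    intro hm K ι _ _ a hcard
    rcases Nat.lt_or_ge 1 m with h1 | h1
    · set q := m.minFac with hq
      have hqp : q.Prime := Nat.minFac_prime (by omega)
      have : Fact q.Prime := ⟨hqp⟩
      obtain ⟨m', hm'⟩ : q ∣ m := Nat.minFac_dvd m
      have hm'0 : 0 < m' := by
        rcases Nat.eq_zero_or_pos m' with h | h
        · rw [h, mul_zero] at hm'; omega
        · exact h
      have hlt : m' + 1 ≤ m := by
        have := hqp.two_le
        nlinarith
      have hqm : q ≤ m := by nlinarith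
      have hle : (K * m' + 1) ^ m' * (K * q + 1) ≤ Fintype.card ι := by
        refine le_trans ?_ hcard
        calc (K * m' + 1) ^ m' * (K * q + 1) ≤ (K * m + 1) ^ m' * (K * m + 1) := by
              apply Nat.mul_le_mul
              · exact Nat.pow_le_pow_left
                  (Nat.add_le_add_right (Nat.mul_le_mul_left K (by omega)) 1) _
              · exact Nat.add_le_add_right (Nat.mul_le_mul_left K hqm) 1
          _ = (K * m + 1) ^ (m' + 1) := (pow_succ _ _).symm
          _ ≤ (K * m + 1) ^ m := Nat.pow_le_pow_right (by omega) hlt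
      have hemb : Nonempty ((Σ _ : Fin ((K * m' + 1) ^ m'), Fin (K * q + 1)) ↪ ι) := by
        apply Function.Embedding.nonempty_of_card_le
        simpa using hle
      obtain ⟨e⟩ := hemb
      have hblk : ∀ g : Fin ((K * m' + 1) ^ m'), ∃ S : Finset (Fin (K * q + 1)), S.Nonempty ∧
          ∀ t, q ∣ ∑ b ∈ S, a (e ⟨g, b⟩) t := by
        intro g
        obtain ⟨S, hS, h2⟩ := prime_case q K (fun b t => ((a (e ⟨g, b⟩) t : ℕ) : ZMod q)) (by
          rw [Fintype.card_fin]
          have : K * (q - 1) ≤ K * q := Nat.mul_le_mul_left K (by omega)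
          omega)
        refine ⟨S, hS, fun t => ?_⟩
        have h3 := h2 t
        rw [← Nat.cast_sum] at h3
        exact (ZMod.natCast_eq_zero_iff _ _).1 h3
      choose Sg hSg hdv using hblk
      choose u hu using hdv
      obtain ⟨G, hG, hGd⟩ := ih m' (by omega) hm'0 K u (by rw [Fintype.card_fin])
      refine ⟨(G.sigma Sg).map e, ?_, ?_⟩
      · obtain ⟨g, hg⟩ := hG
        obtain ⟨b, hb⟩ := hSg g
        exact ⟨e ⟨g, b⟩, Finset.mem_map_of_mem _ (Finset.mem_sigma.2 ⟨hg, hb⟩)⟩
      · intro t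
        rw [Finset.sum_map, Finset.sum_sigma]
        have : ∑ g ∈ G, ∑ b ∈ Sg g, a (e ⟨g, b⟩) t = q * ∑ g ∈ G, u g t := by
          rw [Finset.mul_sum]
          exact Finset.sum_congr rfl (fun g _ => hu g t)
        rw [this, hm']
        exact Nat.mul_dvd_mul_left q (hGd t)
    · have h2 : m = 1 := by omega
      subst h2
      have : 0 < Fintype.card ι := lt_of_lt_of_le (Nat.pow_pos (Nat.succ_pos _)) hcard
      obtain ⟨i⟩ := Fintype.card_pos_iff.1 this
      exact ⟨{i}, Finset.singleton_nonempty i, fun t => one_dvd _⟩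

theorem main : S_ZS := by
  intro m K hm ι _ _ a hcard
  have : NeZero m := ⟨by omega⟩
  obtain ⟨S, hS, h⟩ := nat_case m hm K (fun i t => (a i t).val) hcard
  refine ⟨S, hS, fun t => ?_⟩
  have h1 := (ZMod.natCast_eq_zero_iff _ _).2 (h t)
  rw [Nat.cast_sum] at h1
  rw [← h1]
  apply Finset.sum_congr rfl
  intro i _
  rw [ZMod.natCast_zmod_val]

end Pool.Agent.W883.TM.ZS
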